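import Mathlib
import Pool.Agent.V11167.DapsDefs
import Pool.Agent.V11167.DapsA

namespace Pool.Agent.Results.MP_020ed8_lc.AlphaStarUpper

open Pool.Agent.V11167.Daps

theorem V_L : V.LAtMost (6111 / 10000) := by
  constructor
  · unfold Inst.rho
    have f0 : V.f 0 = 22699 := rfl
    have f1 : V.f 1 = 38099 := rfl
    have f2 : V.f 2 = 76197 := rfl
    have f3 : V.f 3 = 101599 := rfl
    have f4 : V.f 4 = 1000000000 := rfl
    have p0 : V.p 0 = 2700 := rfl
    have p1 : V.p 1 = 10000 := rfl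
    have p2 : V.p 2 = 10000 := rfl
    have p3 : V.p 3 = 10000 := rfl
    have p4 : V.p 4 = 10000 := rfl
    rw [Fin.sum_univ_five, f0, f1, f2, f3, f4, p0, p1, p2, p3, p4]
    norm_num
  · intro i hi
    have h0 : (∑ j ∈ Finset.univ.filter (fun j => j ≤ (0 : Fin 5)), (V.f 0 / V.f j) * V.p j +
        (Finset.univ.filter (fun j => (0 : Fin 5) < j)).sup V.p) = 12700 := by decide
    have h1 : (∑ j ∈ Finset.univ.filter (fun j => j ≤ (1 : Fin 5)), (V.f 1 / V.f j) * V.p j +
        (Finset.univ.filter (fun j => (1 : Fin 5) < j)).sup V.p) = 22700 := by decide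
    have h2 : (∑ j ∈ Finset.univ.filter (fun j => j ≤ (2 : Fin 5)), (V.f 2 / V.f j) * V.p j +
        (Finset.univ.filter (fun j => (2 : Fin 5) < j)).sup V.p) = 38100 := by decide
    have h3 : (∑ j ∈ Finset.univ.filter (fun j => j ≤ (3 : Fin 5)), (V.f 3 / V.f j) * V.p j +
        (Finset.univ.filter (fun j => (3 : Fin 5) < j)).sup V.p) = 60800 := by decide
    have f0 : V.f 0 = 22699 := rfl
    have f1 : V.f 1 = 38099 := rfl
    have f2 : V.f 2 = 76197 := rfl
    have f3 : V.f 3 = 101599 := rfl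
    unfold Inst.muTerm
    fin_cases i
    · show ((∑ j ∈ Finset.univ.filter (fun j => j ≤ (0 : Fin 5)), (V.f 0 / V.f j) * V.p j +
        (Finset.univ.filter (fun j => (0 : Fin 5) < j)).sup V.p : ℕ) : ℝ) / (V.f 0 : ℝ) ≤ _
      rw [h0, f0]
      norm_num
    · show ((∑ j ∈ Finset.univ.filter (fun j => j ≤ (1 : Fin 5)), (V.f 1 / V.f j) * V.p j +
        (Finset.univ.filter (fun j => (1 : Fin 5) < j)).sup V.p : ℕ) : ℝ) / (V.f 1 : ℝ) ≤ _
      rw [h1, f1]
      norm_num
    · show ((∑ j ∈ Finset.univ.filter (fun j => j ≤ (2 : Fin 5)), (V.f 2 / V.f j) * V.p j +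
        (Finset.univ.filter (fun j => (2 : Fin 5) < j)).sup V.p : ℕ) : ℝ) / (V.f 2 : ℝ) ≤ _
      rw [h2, f2]
      norm_num
    · show ((∑ j ∈ Finset.univ.filter (fun j => j ≤ (3 : Fin 5)), (V.f 3 / V.f j) * V.p j +
        (Finset.univ.filter (fun j => (3 : Fin 5) < j)).sup V.p : ℕ) : ℝ) / (V.f 3 : ℝ) ≤ _
      rw [h3, f3]
      norm_num
    · exact absurd hi (by decide)

theorem LAtMost_mono {n : ℕ} (W : Inst n) {α β : ℝ} (h : α ≤ β) (hW : W.LAtMost α) :
    W.LAtMost β :=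
  ⟨le_trans hW.1 h, fun i hi => le_trans (hW.2 i hi) h⟩

/-- The threshold `α*` is at most `0.6111`: there is an infeasible DAPS instance with five jobs
and `L(V) ≤ 0.6111`. -/
theorem result :
    (∃ W : Inst 5, W.LAtMost (6111 / 10000) ∧ ¬ W.Feasible) ∧
    (∀ α : ℝ, (∀ (n : ℕ) (W : Inst n), 0 < n → W.LAtMost α → W.Feasible) →
      α < 6111 / 10000) ∧
    alphaStar ≤ 6111 / 10000 := by
  have key : ∀ α : ℝ, (∀ (n : ℕ) (W : Inst n), 0 < n → W.LAtMost α → W.Feasible) →
      α < 6111 / 10000 := by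
    intro α h
    by_contra hc
    exact V_infeasible (h 5 V (by norm_num) (LAtMost_mono V (not_lt.1 hc) V_L))
  refine ⟨⟨V, V_L, V_infeasible⟩, key, ?_⟩
  unfold alphaStar
  apply csSup_le
  · refine ⟨-1, ?_⟩
    show ∀ (n : ℕ) (W : Inst n), 0 < n → W.LAtMost (-1) → W.Feasible
    intro n W _ hL
    exfalso
    have h1 : 0 ≤ W.rho := by
      unfold Inst.rho
      exact Finset.sum_nonneg (fun i _ => by positivity)
    have := hL.1
    linarith
  · intro α hα
    exact (key α hα).le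

end Pool.Agent.Results.MP_020ed8_lc.AlphaStarUpper
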